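import Mathlib
import Pool.Agent.R46.Dist

/-!
# A connected graph with a cycle that is not stackable onto any vertex

The graph is a triangle with two pendant vertices at one of its vertices and three pendant
vertices at another one (eight vertices in total).
-/

namespace Pool.Agent.Results.MP_75ab16_co.TriangleWithPendants

open Relation

/-- A cup stacking move `u ↦ v` on `G`: allowed when `u` and `v` both carry cups and the distance
of `u` and `v` equals the number of cups on `u`; all cups of `u` are put onto `v`. -/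
def Move {V : Type*} [DecidableEq V] (G : SimpleGraph V) (C C' : V → ℕ) : Prop :=
  ∃ u v : V, 1 ≤ C u ∧ 1 ≤ C v ∧ G.dist u v = C u ∧
    C' = Function.update (Function.update C v (C u + C v)) u 0

/-- `G` is `r`-stackable: some finite sequence of moves, starting with one cup on every vertex,
ends with all `|V|` cups on `r`. -/
def StackableOnto {V : Type*} [Fintype V] [DecidableEq V] (G : SimpleGraph V) (r : V) : Prop :=
  ∃ C : V → ℕ, ReflTransGen (Move G) (fun _ => 1) C ∧ C r = Fintype.card V ∧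
    ∀ v, v ≠ r → C v = 0

/-- The edges of the example: the triangle `0, 1, 2`, the pendant vertices `3, 4` at `1` and the
pendant vertices `5, 6, 7` at `2`. -/
def edges : List (ℕ × ℕ) := [(0, 1), (1, 2), (0, 2), (1, 3), (1, 4), (2, 5), (2, 6), (2, 7)]

/-- The example graph. -/
def Γ : SimpleGraph (Fin 8) where
  Adj a b := (a.val, b.val) ∈ edges ∨ (b.val, a.val) ∈ edges
  symm := ⟨fun _ _ h => h.symm⟩
  loopless := ⟨by decide⟩

instance : DecidableRel Γ.Adj := fun a b => by unfold Γ; infer_instance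

/-- The distances in the example graph. -/
def dL : List (List ℕ) :=
  [[0, 1, 1, 2, 2, 2, 2, 2], [1, 0, 1, 1, 1, 2, 2, 2], [1, 1, 0, 2, 2, 1, 1, 1],
   [2, 1, 2, 0, 2, 3, 3, 3], [2, 1, 2, 2, 0, 3, 3, 3], [2, 2, 1, 3, 3, 0, 2, 2],
   [2, 2, 1, 3, 3, 2, 0, 2], [2, 2, 1, 3, 3, 2, 2, 0]]

/-- Entry of the distance table. -/
def dd (u v : ℕ) : ℕ := (dL.getD u []).getD v 0

theorem dist_eq (u v : Fin 8) : Γ.dist u v = dd u.val v.val :=
  Pool.Agent.R46.dist_eq_of (d := fun v : Fin 8 => dd u.val v.val)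
    (by revert u; decide) (by revert u; decide) (by revert u; decide) (by revert u; decide) v

theorem connected : Γ.Connected :=
  Pool.Agent.R46.connected_of (u := (0 : Fin 8)) (d := fun v : Fin 8 => dd 0 v.val)
    (by decide) (by decide)

/-- Binary search trees of natural numbers. -/
inductive Tr
  | L
  | N (l : Tr) (x : ℕ) (r : Tr)

/-- Membership test. -/
def Tr.mem : Tr → ℕ → Bool
  | .L, _ => false
  | .N l x r, y => if Nat.ble y x = true then (if Nat.ble x y = true then true else l.mem y)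
      else r.mem y

/-- Check of a property for all entries. -/
def Tr.all : Tr → (ℕ → Bool) → Bool
  | .L, _ => true
  | .N l x r, p => p x && (l.all p && r.all p)

theorem Tr.of_all {p : ℕ → Bool} {y : ℕ} : ∀ {t : Tr}, t.all p = true → t.mem y = true → p y = true
  | .L, _, h => by simp [Tr.mem] at h
  | .N l x r, h, h' => by
    simp only [Tr.all, Bool.and_eq_true] at h
    simp only [Tr.mem] at h'
    split at h'
    · split at h'
      · have h1 : y = x := Nat.le_antisymm (Nat.le_of_ble_eq_true (by assumption))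
          (Nat.le_of_ble_eq_true (by assumption))
        exact h1 ▸ h.1
      · exact Tr.of_all h.2.1 h'
    · exact Tr.of_all h.2.2 h'

/-- The `i`-th digit in base nine. -/
def dig (x i : ℕ) : ℕ := x / 9 ^ i % 9

/-- The code of the configuration after the move `u ↦ v`. -/
def step (x u v : ℕ) : ℕ := x + dig x u * 9 ^ v - dig x u * 9 ^ u

/-- Check of one possible move. -/
def okMove (t : Tr) (x u v : ℕ) : Bool :=
  Nat.beq (dig x u) 0 || (Nat.beq (dig x v) 0 || (!(Nat.beq (dd u v) (dig x u)) ||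
    (t.mem (step x u v) && (List.range 8).all fun i =>
      Nat.beq (dig (step x u v) i)
        (if Nat.beq i u = true then 0 else
          if Nat.beq i v = true then dig x u + dig x v else dig x i))))

/-- Check of all possible moves, and that at least two digits are nonzero. -/
def okState (t : Tr) (x : ℕ) : Bool :=
  ((List.range 8).all fun u => (List.range 8).all fun v => okMove t x u v) &&
    ((List.range 8).any fun u => (List.range 8).any fun v =>
      !(Nat.beq u v) && (!(Nat.beq (dig x u) 0) && !(Nat.beq (dig x v) 0)))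

open Tr in
/-- The codes of all reachable configurations. -/
def T : Tr :=
  (N (N (N (N (N (N (N (N (N (N (N L 352 L) 360 L) 432 (N L 1056 L)) 1072 (N (N L 1080 L) 1152 (N
  L 1216 L))) 1296 (N (N (N (N L 2512 L) 2592 L) 3160 (N L 3240 L)) 5104 (N (N L 6888 L) 6904 (N
  L 6912 L)))) 6984 (N (N (N (N (N L 7048 L) 7128 L) 7616 (N L 7624 L)) 7632 (N (N L 7696 L) 7704
  (N L 7776 L))) 8344 (N (N (N (N L 8424 L) 9072 L) 9720 (N L 11664 L)) 14176 (N (N L 14256 L)
  20008 (N L 20088 L))))) 20736 (N (N (N (N (N (N L 26488 L) 26568 L) 27216 (N L 29160 L)) 45928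
  (N (N L 46656 L) 59320 (N L 59328 L))) 59400 (N (N (N (N L 60024 L) 60040 L) 60048 (N L 60120
  L)) 60184 (N (N L 60264 L) 61480 (N L 61560 L)))) 61968 (N (N (N (N (N L 61984 L) 61992 L)
  62128 (N L 62208 L)) 63424 (N (N L 64152 L) 65856 (N L 65872 L))) 65880 (N (N (N L 65952 L)
  66016 (N L 66096 L)) 66584 (N (N L 66592 L) 66600 (N L 66664 L)))))) 66672 (N (N (N (N (N (N (N
  L 66744 L) 67312 L) 67392 (N L 68040 L)) 68528 (N (N L 68536 L) 68544 (N L 68688 L))) 69256 (N
  (N (N (N L 69984 L) 73144 L) 73224 (N L 75088 L)) 78976 (N (N L 79056 L) 79704 (N L 81648 L))))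
  85296 (N (N (N (N (N L 85312 L) 85320 L) 85456 (N L 85536 L)) 86024 (N (N L 86032 L) 86040 (N L
  86184 L))) 86752 (N (N (N L 87480 L) 92584 (N L 98416 L)) 99144 (N (N L 104976 L) 178120 (N L
  178200 L))))) 180064 (N (N (N (N (N (N L 183952 L) 184032 L) 184680 (N L 186624 L)) 203392 (N
  (N L 204120 L) 236440 (N L 236520 L))) 237168 (N (N (N (N L 239112 L) 243000 L) 262440 (N L
  531712 L)) 531720 (N (N L 531792 L) 532416 (N L 532432 L)))) 532440 (N (N (N (N (N L 532512 L)
  532576 L) 532656 (N L 533872 L)) 533952 (N (N L 534360 L) 534376 (N L 534384 L))) 534520 (N (N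
  (N L 534600 L) 535816 (N L 536544 L)) 538248 (N (N L 538264 L) 538272 (N L 538344 L)))))))
  538408 (N (N (N (N (N (N (N (N L 538488 L) 538976 L) 538984 (N L 538992 L)) 539056 (N (N L
  539064 L) 539136 (N L 539704 L))) 539784 (N (N (N (N L 540432 L) 540920 L) 540928 (N L 540936
  L)) 541080 (N (N L 541648 L) 542376 (N L 545536 L)))) 545616 (N (N (N (N (N L 547480 L) 551368
  L) 551448 (N L 552096 L)) 554040 (N (N L 557688 L) 557704 (N L 557712 L))) 557848 (N (N (N (N L
  557928 L) 558416 L) 558424 (N L 558432 L)) 558576 (N (N L 559144 L) 559872 (N L 564976 L)))))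
  570808 (N (N (N (N (N (N L 571536 L) 577368 L) 590520 (N L 590536 L)) 590544 (N (N L 590680 L)
  590688 (N L 590760 L))) 591224 (N (N (N (N L 591240 L) 591256 L) 591264 (N L 591384 L)) 591400
  (N (N L 591408 L) 591480 (N L 591544 L)))) 591624 (N (N (N (N (N L 592680 L) 592696 L) 592704
  (N L 592840 L)) 592920 (N (N L 593408 L) 593424 (N L 593488 L))) 593568 (N (N (N L 594136 L)
  594864 (N L 597056 L)) 597072 (N (N L 597088 L) 597096 (N L 597216 L)))))) 597232 (N (N (N (N
  (N (N (N L 597240 L) 597312 L) 597376 (N L 597456 L)) 597784 (N (N L 597792 L) 597808 (N L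
  597816 L))) 597944 (N (N (N (N L 597952 L) 597960 L) 598024 (N L 598032 L)) 598104 (N (N L
  598512 L) 598672 (N L 598752 L)))) 599240 (N (N (N (N (N L 599248 L) 599256 L) 599400 (N L
  599968 L)) 599976 (N (N L 600048 L) 600696 (N L 604344 L))) 604504 (N (N (N L 604584 L) 605800
  (N L 606528 L)) 610176 (N (N L 610192 L) 610200 (N L 610336 L))))) 610416 (N (N (N (N (N (N L
  610904 L) 610912 L) 610920 (N L 611064 L)) 611632 (N (N L 612360 L) 616736 (N L 616752 L)))
  616816 (N (N (N (N L 616896 L) 617464 L) 617472 (N L 617544 L)) 618192 (N (N L 623296 L) 624024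
  (N L 629856 L)))) 652456 (N (N (N (N (N L 659016 L) 675784 L) 676512 (N L 708616 L)) 708624 (N
  (N L 709320 L) 709336 (N L 709344 L))) 709480 (N (N (N L 709560 L) 710776 (N L 711504 L))
  715152 (N (N L 715168 L) 715176 (N L 715312 L)))))))) 715392 (N (N (N (N (N (N (N (N (N L
  715880 L) 715888 L) 715896 (N L 716040 L)) 716608 (N (N L 717336 L) 722440 (N L 728272 L)))
  729000 (N (N (N (N L 734832 L) 767640 L) 767656 (N L 767664 L)) 767800 (N (N L 767880 L) 768368
  (N L 768376 L)))) 768384 (N (N (N (N (N L 768528 L) 769096 L) 769824 (N L 774200 L)) 774208 (N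
  (N L 774216 L) 774360 (N L 780760 L))) 787320 (N (N (N (N L 827416 L) 833248 L) 833976 (N L
  885736 L)) 886464 (N (N L 892296 L) 944784 (N L 1124848 L))))) 1131408 (N (N (N (N (N (N L
  1148176 L) 1148904 L) 1595296 (N L 1595376 L)) 1597240 (N (N L 1601128 L) 1601208 (N L 1601856
  L))) 1603800 (N (N (N (N L 1620568 L) 1621296 L) 1653400 (N L 1653408 L)) 1654104 (N (N L
  1654120 L) 1654128 (N L 1654264 L)))) 1654344 (N (N (N (N (N L 1655560 L) 1656288 L) 1659936 (N
  L 1659952 L)) 1659960 (N (N L 1660096 L) 1660176 (N L 1660664 L))) 1660672 (N (N (N L 1660680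
  L) 1660824 (N L 1661392 L)) 1662120 (N (N L 1667224 L) 1673056 (N L 1673784 L)))))) 1679616 (N
  (N (N (N (N (N (N L 1772200 L) 1778032 L) 1778760 (N L 1830520 L)) 1831248 (N (N L 1837080 L)
  2126008 (N L 2126088 L))) 2126736 (N (N (N (N L 2128680 L) 2132568 L) 2152008 (N L 2184816 L))
  2184832 (N (N L 2184840 L) 2184976 (N L 2185056 L)))) 2185544 (N (N (N (N (N L 2185552 L)
  2185560 L) 2185704 (N L 2186272 L)) 2187000 (N (N L 2191376 L) 2191384 (N L 2191392 L)))
  2191536 (N (N (N L 2197936 L) 2204496 (N L 2302912 L)) 2303640 (N (N L 2309472 L) 2361960 (N L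
  2716984 L))))) 2722816 (N (N (N (N (N (N L 2723544 L) 3247696 L) 3248424 (N L 3254256 L))
  3779136 (N (N L 4783240 L) 4783248 (N L 4783320 L))) 4783944 (N (N (N (N L 4783960 L) 4783968
  L) 4784040 (N L 4784104 L)) 4784184 (N (N L 4785400 L) 4785480 (N L 4785888 L)))) 4785904 (N (N
  (N (N (N L 4785912 L) 4786048 L) 4786128 (N L 4787344 L)) 4788072 (N (N L 4789776 L) 4789792 (N
  L 4789800 L))) 4789872 (N (N (N L 4789936 L) 4790016 (N L 4790504 L)) 4790512 (N (N L 4790520
  L) 4790584 (N L 4790592 L))))))) 4790664 (N (N (N (N (N (N (N (N L 4791232 L) 4791312 L)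
  4791960 (N L 4792448 L)) 4792456 (N (N L 4792464 L) 4792608 (N L 4793176 L))) 4793904 (N (N (N
  (N L 4797064 L) 4797144 L) 4799008 (N L 4802896 L)) 4802976 (N (N L 4803624 L) 4805568 (N L
  4809216 L)))) 4809232 (N (N (N (N (N L 4809240 L) 4809376 L) 4809456 (N L 4809944 L)) 4809952
  (N (N L 4809960 L) 4810104 (N L 4810672 L))) 4811400 (N (N (N (N L 4816504 L) 4822336 L)
  4823064 (N L 4828896 L)) 4842048 (N (N L 4842064 L) 4842072 (N L 4842208 L))))) 4842216 (N (N
  (N (N (N (N L 4842288 L) 4842752 L) 4842768 (N L 4842784 L)) 4842792 (N (N L 4842912 L) 4842928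
  (N L 4842936 L))) 4843008 (N (N (N (N L 4843072 L) 4843152 L) 4844208 (N L 4844224 L)) 4844232
  (N (N L 4844368 L) 4844448 (N L 4844936 L)))) 4844952 (N (N (N (N (N L 4845016 L) 4845096 L)
  4845664 (N L 4846392 L)) 4848584 (N (N L 4848600 L) 4848616 (N L 4848624 L))) 4848744 (N (N (N
  L 4848760 L) 4848768 (N L 4848840 L)) 4848904 (N (N L 4848984 L) 4849312 (N L 4849320 L))))))
  4849336 (N (N (N (N (N (N (N L 4849344 L) 4849472 L) 4849480 (N L 4849488 L)) 4849552 (N (N L
  4849560 L) 4849632 (N L 4850040 L))) 4850200 (N (N (N (N L 4850280 L) 4850768 L) 4850776 (N L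
  4850784 L)) 4850928 (N (N L 4851496 L) 4851504 (N L 4851576 L)))) 4852224 (N (N (N (N (N L
  4855872 L) 4856032 L) 4856112 (N L 4857328 L)) 4858056 (N (N L 4861704 L) 4861720 (N L 4861728
  L))) 4861864 (N (N (N L 4861944 L) 4862432 (N L 4862440 L)) 4862448 (N (N L 4862592 L) 4863160
  (N L 4863888 L))))) 4868264 (N (N (N (N (N (N L 4868280 L) 4868344 L) 4868424 (N L 4868992 L))
  4869000 (N (N L 4869072 L) 4869720 (N L 4874824 L))) 4875552 (N (N (N (N L 4881384 L) 4903984
  L) 4910544 (N L 4927312 L)) 4928040 (N (N L 4960144 L) 4960152 (N L 4960848 L)))) 4960864 (N (N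
  (N (N (N L 4960872 L) 4961008 L) 4961088 (N L 4962304 L)) 4963032 (N (N L 4966680 L) 4966696 (N
  L 4966704 L))) 4966840 (N (N (N L 4966920 L) 4967408 (N L 4967416 L)) 4967424 (N (N L 4967568
  L) 4968136 (N L 4968864 L))))))))) 4973968 (N (N (N (N (N (N (N (N (N (N L 4979800 L) 4980528
  L) 4986360 (N L 5019168 L)) 5019184 (N (N L 5019192 L) 5019328 (N L 5019408 L))) 5019896 (N (N
  (N (N L 5019904 L) 5019912 L) 5020056 (N L 5020624 L)) 5021352 (N (N L 5025728 L) 5025736 (N L
  5025744 L)))) 5025888 (N (N (N (N (N L 5032288 L) 5038848 L) 5078944 (N L 5084776 L)) 5085504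
  (N (N L 5137264 L) 5137992 (N L 5143824 L))) 5196312 (N (N (N (N L 5314440 L) 5314456 L)
  5314464 (N L 5314600 L)) 5314608 (N (N L 5314680 L) 5315144 (N L 5315160 L))))) 5315176 (N (N
  (N (N (N (N L 5315184 L) 5315304 L) 5315320 (N L 5315328 L)) 5315400 (N (N L 5315464 L) 5315544
  (N L 5316600 L))) 5316616 (N (N (N (N L 5316624 L) 5316760 L) 5316840 (N L 5317328 L)) 5317344
  (N (N L 5317408 L) 5317488 (N L 5318056 L)))) 5318784 (N (N (N (N (N L 5320976 L) 5320992 L)
  5321008 (N L 5321016 L)) 5321136 (N (N L 5321152 L) 5321160 (N L 5321232 L))) 5321296 (N (N (N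
  L 5321376 L) 5321704 (N L 5321712 L)) 5321728 (N (N L 5321736 L) 5321864 (N L 5321872 L))))))
  5321880 (N (N (N (N (N (N (N L 5321944 L) 5321952 L) 5322024 (N L 5322432 L)) 5322592 (N (N L
  5322672 L) 5323160 (N L 5323168 L))) 5323176 (N (N (N (N L 5323320 L) 5323888 L) 5323896 (N L
  5323968 L)) 5324616 (N (N L 5328264 L) 5328424 (N L 5328504 L)))) 5329720 (N (N (N (N (N L
  5330448 L) 5334096 L) 5334112 (N L 5334120 L)) 5334256 (N (N L 5334336 L) 5334824 (N L 5334832
  L))) 5334840 (N (N (N L 5334984 L) 5335552 (N L 5336280 L)) 5340656 (N (N L 5340672 L) 5340736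
  (N L 5340816 L))))) 5341384 (N (N (N (N (N (N L 5341392 L) 5341464 L) 5342112 (N L 5347216 L))
  5347944 (N (N L 5353776 L) 5373488 (N L 5373496 L))) 5373504 (N (N (N (N L 5373568 L) 5373576
  L) 5373648 (N L 5374192 L)) 5374208 (N (N L 5374216 L) 5374224 (N L 5374272 L)))) 5374288 (N (N
  (N (N (N L 5374296 L) 5374368 L) 5374432 (N L 5374512 L)) 5375648 (N (N L 5375664 L) 5375728 (N
  L 5375808 L))) 5377104 (N (N (N L 5380024 L) 5380040 (N L 5380048 L)) 5380056 (N (N L 5380104
  L) 5380120 (N L 5380128 L))))))) 5380200 (N (N (N (N (N (N (N (N L 5380264 L) 5380344 L)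
  5380752 (N L 5380760 L)) 5380768 (N (N L 5380776 L) 5380832 (N L 5380840 L))) 5380848 (N (N (N
  (N L 5380912 L) 5380920 L) 5380992 (N L 5381480 L)) 5381560 (N (N L 5381640 L) 5382208 (N L
  5382216 L)))) 5382288 (N (N (N (N (N L 5382936 L) 5387312 L) 5387392 (N L 5387472 L)) 5388768
  (N (N L 5393144 L) 5393160 (N L 5393224 L))) 5393304 (N (N (N (N L 5393872 L) 5393880 L)
  5393952 (N L 5394600 L)) 5400432 (N (N L 5406264 L) 5432536 (N L 5432544 L))))) 5433240 (N (N
  (N (N (N (N L 5433256 L) 5433264 L) 5434696 (N L 5439072 L)) 5439088 (N (N L 5439096 L) 5439800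
  (N L 5439808 L))) 5439816 (N (N (N (N L 5440528 L) 5441256 L) 5446360 (N L 5452192 L)) 5452920
  (N (N L 5491584 L) 5492288 (N L 5492304 L)))) 5492368 (N (N (N (N (N L 5492448 L) 5493744 L)
  5498120 (N L 5498136 L)) 5498200 (N (N L 5498280 L) 5498848 (N L 5498856 L))) 5498928 (N (N (N
  L 5499576 L) 5505408 (N L 5511240 L)) 5550608 (N (N L 5550624 L) 5550688 (N L 5550768 L))))))
  5551336 (N (N (N (N (N (N (N L 5551344 L) 5551416 L) 5552064 (N L 5557168 L)) 5557176 (N (N L
  5557248 L) 5557896 (N L 5563728 L))) 5609656 (N (N (N (N L 5610384 L) 5616216 L) 5668704 (N L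
  5848768 L)) 5855328 (N (N L 5872096 L) 5872824 (N L 5904928 L)))) 5904936 (N (N (N (N (N L
  5905632 L) 5905648 L) 5905656 (N L 5907088 L)) 5911464 (N (N L 5911480 L) 5911488 (N L 5912192
  L))) 5912200 (N (N (N L 5912208 L) 5912920 (N L 5913648 L)) 5918752 (N (N L 5924584 L) 5925312
  (N L 6023728 L))))) 6029560 (N (N (N (N (N (N L 6030288 L) 6082048 L) 6082776 (N L 6088608 L))
  6377320 (N (N L 6377328 L) 6378024 (N L 6378040 L))) 6378048 (N (N (N (N L 6378184 L) 6378264
  L) 6379480 (N L 6380208 L)) 6383856 (N (N L 6383872 L) 6383880 (N L 6384016 L)))) 6384096 (N (N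
  (N (N (N L 6384584 L) 6384592 L) 6384600 (N L 6384744 L)) 6385312 (N (N L 6386040 L) 6391144 (N
  L 6396976 L))) 6397704 (N (N (N L 6403536 L) 6436368 (N L 6437072 L)) 6437088 (N (N L 6437152
  L) 6437232 (N L 6438528 L)))))))) 6442904 (N (N (N (N (N (N (N (N (N L 6442920 L) 6442984 L)
  6443064 (N L 6443632 L)) 6443640 (N (N L 6443712 L) 6444360 (N L 6450192 L))) 6456024 (N (N (N
  (N L 6496120 L) 6501952 L) 6502680 (N L 6555168 L)) 6561000 (N (N L 6613488 L) 6908736 (N L
  6908752 L)))) 6908760 (N (N (N (N (N L 6908896 L) 6908976 L) 6909464 (N L 6909472 L)) 6909480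
  (N (N L 6909624 L) 6910192 (N L 6910920 L))) 6915296 (N (N (N (N L 6915304 L) 6915312 L)
  6915456 (N L 6921856 L)) 6928416 (N (N L 6967784 L) 6967800 (N L 6967864 L))))) 6967944 (N (N
  (N (N (N (N L 6968512 L) 6968520 L) 6968592 (N L 6969240 L)) 6974344 (N (N L 6974352 L) 6974424
  (N L 6975072 L))) 6980904 (N (N (N (N L 7026832 L) 7027560 L) 7033392 (N L 7085880 L)) 7440904
  (N (N L 7446736 L) 7447464 (N L 7499224 L)))) 7499952 (N (N (N (N (N L 7505784 L) 7971616 L)
  7972344 (N L 7978176 L)) 8030664 (N (N L 8503056 L) 9627904 (N L 9634464 L))) 9651232 (N (N (N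
  L 9651960 L) 10100296 (N L 10106856 L)) 10123624 (N (N L 10124352 L) 10156456 (N L 10156464
  L)))))) 10157160 (N (N (N (N (N (N (N L 10157176 L) 10157184 L) 10158616 (N L 10162992 L))
  10163008 (N (N L 10163016 L) 10163720 (N L 10163728 L))) 10163736 (N (N (N (N L 10164448 L)
  10165176 L) 10170280 (N L 10176112 L)) 10176840 (N (N L 10275256 L) 10281088 (N L 10281816
  L)))) 10333576 (N (N (N (N (N L 10334304 L) 10340136 L) 11220040 (N L 11225872 L)) 11226600 (N
  (N L 11750752 L) 11751480 (N L 11757312 L))) 14349880 (N (N (N L 14349960 L) 14351824 (N L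
  14355712 L)) 14355792 (N (N L 14356440 L) 14358384 (N L 14375152 L))))) 14375880 (N (N (N (N (N
  (N L 14407984 L) 14407992 L) 14408688 (N L 14408704 L)) 14408712 (N (N L 14408848 L) 14408928
  (N L 14410144 L))) 14410872 (N (N (N (N L 14414520 L) 14414536 L) 14414544 (N L 14414680 L))
  14414760 (N (N L 14415248 L) 14415256 (N L 14415264 L)))) 14415408 (N (N (N (N (N L 14415976 L)
  14416704 L) 14421808 (N L 14427640 L)) 14428368 (N (N L 14434200 L) 14526784 (N L 14532616 L)))
  14533344 (N (N (N L 14585104 L) 14585832 (N L 14591664 L)) 14880376 (N (N L 14880384 L)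
  14881080 (N L 14881096 L))))))) 14881104 (N (N (N (N (N (N (N (N L 14881240 L) 14881320 L)
  14882536 (N L 14883264 L)) 14886912 (N (N L 14886928 L) 14886936 (N L 14887072 L))) 14887152 (N
  (N (N (N L 14887640 L) 14887648 L) 14887656 (N L 14887800 L)) 14888368 (N (N L 14889096 L)
  14894200 (N L 14900032 L)))) 14900760 (N (N (N (N (N L 14906592 L) 14939424 L) 14940128 (N L
  14940144 L)) 14940208 (N (N L 14940288 L) 14941584 (N L 14945960 L))) 14945976 (N (N (N (N L
  14946040 L) 14946120 L) 14946688 (N L 14946696 L)) 14946768 (N (N L 14947416 L) 14953248 (N L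
  14959080 L))))) 14999176 (N (N (N (N (N (N L 15005008 L) 15005736 L) 15058224 (N L 15064056 L))
  15116544 (N (N L 15471568 L) 15477400 (N L 15478128 L))) 15943960 (N (N (N (N L 15949792 L)
  15950520 L) 16003008 (N L 16008840 L)) 16474672 (N (N L 16475400 L) 16481232 (N L 16533720
  L)))) 19132120 (N (N (N (N (N L 19132200 L) 19132848 L) 19134792 (N L 19138680 L)) 19158120 (N
  (N L 19190928 L) 19190944 (N L 19190952 L))) 19191088 (N (N (N L 19191168 L) 19191656 (N L
  19191664 L)) 19191672 (N (N L 19191816 L) 19192384 (N L 19193112 L)))))) 19197488 (N (N (N (N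
  (N (N (N L 19197496 L) 19197504 L) 19197648 (N L 19204048 L)) 19210608 (N (N L 19309024 L)
  19309752 (N L 19315584 L))) 19368072 (N (N (N (N L 19663320 L) 19663336 L) 19663344 (N L
  19663480 L)) 19663560 (N (N L 19664048 L) 19664056 (N L 19664064 L)))) 19664208 (N (N (N (N (N
  L 19664776 L) 19665504 L) 19669880 (N L 19669888 L)) 19669896 (N (N L 19670040 L) 19676440 (N L
  19683000 L))) 19722368 (N (N (N L 19722384 L) 19722448 (N L 19722528 L)) 19723096 (N (N L
  19723104 L) 19723176 (N L 19723824 L))))) 19728928 (N (N (N (N (N (N L 19728936 L) 19729008 L)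
  19729656 (N L 19735488 L)) 19781416 (N (N L 19782144 L) 19787976 (N L 19840464 L))) 20253808 (N
  (N (N (N L 20254536 L) 20260368 L) 20726200 (N L 20726928 L)) 20732760 (N (N L 20785248 L)
  21257640 (N L 23974624 L)))) 23980456 (N (N (N (N (N L 23981184 L) 24447016 L) 24452848 (N L
  24453576 L)) 24505336 (N (N L 24506064 L) 24511896 (N L 28756864 L))) 28757592 (N (N (N L
  28763424 L) 29229256 (N L 29229984 L)) 29235816 (N (N L 29288304 L) 33539832 (N L 34012224
  L))))))))))

theorem T_ok : T.all (okState T) = true := by decide +kernel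

theorem T_start : T.mem 5380840 = true := by decide +kernel

theorem start_dig (i : Fin 8) : dig 5380840 i.val = 1 := by revert i; decide +kernel

/-- Every reachable configuration is coded in `T`. -/
theorem reach (C : Fin 8 → ℕ) (h : ReflTransGen (Move Γ) (fun _ => 1) C) :
    ∃ x, T.mem x = true ∧ ∀ i : Fin 8, C i = dig x i.val := by
  induction h with
  | refl => exact ⟨_, T_start, fun i => (start_dig i).symm⟩
  | tail _ hm ih =>
    obtain ⟨x, hx, hC⟩ := ih
    obtain ⟨u, v, hu, hv, hd, rfl⟩ := hm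
    have hok := Tr.of_all T_ok hx
    simp only [okState, Bool.and_eq_true, List.all_eq_true, List.mem_range] at hok
    have h1 := hok.1 u.val u.isLt v.val v.isLt
    rw [dist_eq] at hd
    rw [hC] at hu hv hd
    simp only [okMove, Bool.or_eq_true, Bool.not_eq_true', Nat.beq_eq, Bool.and_eq_true,
      List.all_eq_true, List.mem_range] at h1
    rcases h1 with h1 | h1 | h1 | h1
    · omega
    · omega
    · exact absurd hd (by
        intro h
        rw [h] at h1
        simp at h1)
    · refine ⟨_, h1.1, fun i => ?_⟩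
      rw [h1.2 i.val i.isLt]
      by_cases hiu : i = u
      · subst hiu; simp
      · have h2 : ¬ i.val = u.val := fun h => hiu (Fin.ext h)
        by_cases hiv : i = v
        · subst hiv
          rw [Function.update_of_ne hiu, Function.update_self, hC, hC]
          simp [h2]
        · have h3 : ¬ i.val = v.val := fun h => hiv (Fin.ext h)
          rw [Function.update_of_ne hiu, Function.update_of_ne hiv, hC]
          simp [h2, h3]

theorem not_stackable (r : Fin 8) : ¬ StackableOnto Γ r := by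
  rintro ⟨C, hC, -, h0⟩
  obtain ⟨x, hx, hx'⟩ := reach C hC
  have hok := Tr.of_all T_ok hx
  simp only [okState, Bool.and_eq_true, List.any_eq_true, List.mem_range, Bool.not_eq_true'] at hok
  obtain ⟨-, u, hu, v, hv, huv, h1, h2⟩ := hok
  have e : ∀ w, (hw : w < 8) → (Nat.beq (dig x w) 0) = false → w = r.val := by
    intro w hw h
    by_contra hne
    have := h0 ⟨w, hw⟩ (fun h => hne (congrArg Fin.val h))
    rw [hx'] at this
    simp only at this
    rw [this] at h
    simp at h
  have h3 := e u hu h1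
  have h4 := e v hv h2
  rw [h3, h4] at huv
  simp at huv

theorem not_tree : ¬ Γ.IsTree := by
  intro h
  have h1 := h.card_edgeFinset
  have h2 : Γ.edgeFinset.card = 8 := by decide +kernel
  rw [h2] at h1
  simp at h1

/-- **Main result.** There is a finite connected graph that is not a tree and that is not
`r`-stackable for any of its vertices `r`. -/
theorem result : ∃ (n : ℕ) (G : SimpleGraph (Fin n)), G.Connected ∧ ¬ G.IsTree ∧
    ∀ r : Fin n, ¬ StackableOnto G r :=
  ⟨8, Γ, connected, not_tree, not_stackable⟩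

end Pool.Agent.Results.MP_75ab16_co.TriangleWithPendants
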